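import Mathlib

set_option autoImplicit false

namespace Pool.Agent.Results.MP_18aa7e_al.Free

open Pointwise

/-- The relators of the Manturov group with `k = 2`, `n = 4`; the generators `0, …, 5` are the
letters `a, b, c, d, e, f`. A relation `u = v` is written as the relator `u * v⁻¹`. -/
def rels : Set (FreeGroup (Fin 6)) :=
  let a := FreeGroup.of (0 : Fin 6)
  let b := FreeGroup.of (1 : Fin 6)
  let c := FreeGroup.of (2 : Fin 6)
  let d := FreeGroup.of (3 : Fin 6)
  let e := FreeGroup.of (4 : Fin 6)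
  let f := FreeGroup.of (5 : Fin 6)
  {a * a, b * b, c * c, d * d, e * e, f * f,
   a * f * (f * a)⁻¹, b * e * (e * b)⁻¹, c * d * (d * c)⁻¹,
   a * b * d * (d * b * a)⁻¹, b * a * d * (d * a * b)⁻¹, a * d * b * (b * d * a)⁻¹,
   a * c * e * (e * c * a)⁻¹, c * a * e * (e * a * c)⁻¹, a * e * c * (c * e * a)⁻¹,
   b * c * f * (f * c * b)⁻¹, c * b * f * (f * b * c)⁻¹, b * f * c * (c * f * b)⁻¹,
   d * e * f * (f * e * d)⁻¹, e * d * f * (f * d * e)⁻¹, d * f * e * (e * f * d)⁻¹}

/-- irrational numbers -/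
abbrev X : Type := {x : ℝ // Irrational x}

def pb : Equiv.Perm X :=
  Function.Involutive.toPerm (fun x => ⟨-x.1, x.2.neg⟩) (fun x => Subtype.ext (by simp))

noncomputable def pd : Equiv.Perm X :=
  Function.Involutive.toPerm (fun x => ⟨x.1⁻¹, x.2.inv⟩) (fun x => Subtype.ext (by simp))

def pf : Equiv.Perm X :=
  Function.Involutive.toPerm (fun x => ⟨((2 : ℕ) : ℝ) - x.1, x.2.natCast_sub 2⟩)
    (fun x => Subtype.ext (by simp))

lemma pb_val (x : X) : (pb x).1 = -x.1 := rfl
lemma pd_val (x : X) : (pd x).1 = x.1⁻¹ := rfl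
lemma pf_val (x : X) : (pf x).1 = 2 - x.1 := by
  show ((2 : ℕ) : ℝ) - x.1 = 2 - x.1
  norm_num

lemma bb : pb * pb = 1 := by ext x; simp [pb_val]
lemma dd : pd * pd = 1 := by ext x; simp [pd_val]
lemma ff : pf * pf = 1 := by ext x; simp [pf_val]
lemma bd : pb * pd = pd * pb := by ext x; simp [pb_val, pd_val]

noncomputable def gen : Fin 6 → Equiv.Perm X := ![1, pb, pb, pd, pd, pf]

lemma rels_ok : ∀ r ∈ rels, FreeGroup.lift gen r = 1 := by
  have g0 : gen 0 = 1 := rfl
  have g1 : gen 1 = pb := rfl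
  have g2 : gen 2 = pb := rfl
  have g3 : gen 3 = pd := rfl
  have g4 : gen 4 = pd := rfl
  have g5 : gen 5 = pf := rfl
  have b2 : ∀ x, pb * pb * x = x * pb * pb := fun x => by rw [mul_assoc x, bb]; simp
  have d2 : ∀ x, pd * pd * x = x * pd * pd := fun x => by rw [mul_assoc x, dd]; simp
  intro r hr
  simp only [rels, Set.mem_insert_iff, Set.mem_singleton_iff] at hr
  rcases hr with h | h | h | h | h | h | h | h | h | h | h | h | h | h | h | h | h | h | h | h | h <;>
    subst h <;>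
    simp only [map_mul, map_inv, FreeGroup.lift_apply_of, g0, g1, g2, g3, g4, g5, mul_inv_eq_one,
      one_mul, mul_one] <;>
    first | exact bb | exact dd | exact ff | exact bd | exact bd.symm | exact b2 _ | exact d2 _

noncomputable def A : Fin 2 → Equiv.Perm X := ![pf * pb, pd * pf * pb * pd]

def P : Fin 2 → Set X := ![{x | 1 < x.1}, {x | 0 < x.1 ∧ x.1 < 1}]

def N : Fin 2 → Set X := ![{x | x.1 < -1}, {x | -1 < x.1 ∧ x.1 < 0}]

lemma ne_int (x : X) (n : ℤ) : x.1 ≠ n := x.2.ne_int n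

lemma inv_cases (x : X) (h : ¬ (0 < x.1 ∧ x.1 < 1)) : x.1⁻¹ < 1 := by
  rcases lt_trichotomy x.1 0 with h0 | h0 | h0
  · exact (inv_lt_zero.2 h0).trans zero_lt_one
  · exact absurd h0 (by simpa using ne_int x 0)
  · have h1 : x.1 ≠ 1 := by simpa using ne_int x 1
    have : 1 < x.1 := by
      by_contra hc
      exact h ⟨h0, lt_of_le_of_ne (not_lt.1 hc) h1⟩
    exact inv_lt_one_of_one_lt₀ this

lemma A0_inv : (A 0)⁻¹ = pb * pf := by
  show (pf * pb)⁻¹ = pb * pf
  rw [inv_eq_iff_mul_eq_one, mul_assoc, ← mul_assoc pb, bb, one_mul, ff]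

lemma A1_inv : (A 1)⁻¹ = pd * pb * pf * pd := by
  show (pd * pf * pb * pd)⁻¹ = pd * pb * pf * pd
  rw [inv_eq_iff_mul_eq_one]
  calc pd * pf * pb * pd * (pd * pb * pf * pd)
      = pd * (pf * (pb * (pd * pd) * pb) * pf) * pd := by simp only [mul_assoc]
    _ = 1 := by rw [dd, mul_one, bb, mul_one, ff, mul_one, dd]

lemma free : Function.Injective (FreeGroup.lift A) := by
  have s2 : Irrational (Real.sqrt 2) := irrational_sqrt_two
  have s1 : 1 < Real.sqrt 2 := Real.one_lt_sqrt_two
  apply FreeGroup.injective_lift_of_ping_pong A P N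
  · intro i
    fin_cases i
    · exact ⟨⟨_, s2⟩, s1⟩
    · exact ⟨⟨_, s2.inv⟩, inv_pos.2 (by linarith), inv_lt_one_of_one_lt₀ s1⟩
  · intro i j hij
    fin_cases i <;> fin_cases j <;> first | exact absurd rfl hij | skip
    all_goals
      simp only [Function.onFun, Set.disjoint_left, P]
      intro x h1 h2
      simp at h1 h2
      linarith
  · intro i j hij
    fin_cases i <;> fin_cases j <;> first | exact absurd rfl hij | skip
    all_goals
      simp only [Function.onFun, Set.disjoint_left, N]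
      intro x h1 h2
      simp at h1 h2
      linarith
  · intro i j
    fin_cases i <;> fin_cases j
    all_goals
      simp only [Set.disjoint_left, P, N]
      intro x h1 h2
      simp at h1 h2
      linarith
  · intro i
    fin_cases i
    · rintro _ ⟨x, hx, rfl⟩
      have h : ¬ x.1 < -1 := hx
      have h1 : x.1 ≠ -1 := by simpa using ne_int x (-1)
      have h2 : -1 < x.1 := lt_of_le_of_ne (not_lt.1 h) h1.symm
      show 1 < (pf (pb x)).1
      rw [pf_val, pb_val]; linarith
    · rintro _ ⟨x, hx, rfl⟩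
      have h : ¬ (-1 < x.1 ∧ x.1 < 0) := hx
      have h1 := inv_cases (pb x) (by rw [pb_val]; intro h2; exact h ⟨by linarith [h2.2], by linarith [h2.1]⟩)
      rw [pb_val, inv_neg] at h1
      show 0 < (pd (pf (pb (pd x)))).1 ∧ (pd (pf (pb (pd x)))).1 < 1
      rw [pd_val, pf_val, pb_val, pd_val]
      exact ⟨inv_pos.2 (by linarith), inv_lt_one_of_one_lt₀ (by linarith)⟩
  · intro i
    fin_cases i
    · rintro _ ⟨x, hx, rfl⟩
      have h : ¬ 1 < x.1 := hx
      have h1 : x.1 ≠ 1 := by simpa using ne_int x 1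
      have h2 : x.1 < 1 := lt_of_le_of_ne (not_lt.1 h) h1
      show ((A 0)⁻¹ x).1 < -1
      rw [A0_inv]
      show (pb (pf x)).1 < -1
      rw [pb_val, pf_val]; linarith
    · rintro _ ⟨x, hx, rfl⟩
      have h1 := inv_cases x hx
      show -1 < ((A 1)⁻¹ x).1 ∧ ((A 1)⁻¹ x).1 < 0
      rw [A1_inv]
      show -1 < (pd (pb (pf (pd x)))).1 ∧ (pd (pb (pf (pd x)))).1 < 0
      rw [pd_val, pb_val, pf_val, pd_val, inv_neg]
      have h2 : (2 - x.1⁻¹)⁻¹ < 1 := inv_lt_one_of_one_lt₀ (by linarith)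
      have h3 : 0 < (2 - x.1⁻¹)⁻¹ := inv_pos.2 (by linarith)
      constructor <;> linarith

theorem result :
    ∃ H : Subgroup (PresentedGroup rels), Nonempty (H ≃* FreeGroup (Fin 2)) := by
  let w : Fin 2 → PresentedGroup rels :=
    ![PresentedGroup.of 5 * PresentedGroup.of 1,
      PresentedGroup.of 3 * PresentedGroup.of 5 * PresentedGroup.of 1 * PresentedGroup.of 3]
  have e : (PresentedGroup.toGroup rels_ok).comp (FreeGroup.lift w) = FreeGroup.lift A := by
    ext1 i
    fin_cases i <;> simp [w, A, gen]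
  have inj : Function.Injective (FreeGroup.lift w) := by
    apply Function.Injective.of_comp (f := PresentedGroup.toGroup rels_ok)
    rw [← MonoidHom.coe_comp, e]
    exact free
  exact ⟨(FreeGroup.lift w).range, ⟨(MonoidHom.ofInjective inj).symm⟩⟩

end Pool.Agent.Results.MP_18aa7e_al.Free
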